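import Pool.Agent.Y659.MPS.Stm

/-!
# MPS: vanishing of the coefficients, case `y g(0) = 0`
-/

set_option autoImplicit false

namespace Pool.Agent.Y388.MPS

open Matrix Pool.Agent.Y659.MPS

section

variable {D : ℕ} {X x y : Matrix (Fin D) (Fin D) ℂ} {g : ℤ → Matrix (Fin D) (Fin D) ℂ}
  {p q : ℕ} {c cxy cyy : ℂ} {α β : ℕ → ℂ}

theorem gx (h : Core X x y g p q c cxy cyy α β) {k : ℤ} (h1 : -(p : ℤ) ≤ k) (h2 : k < 0) :
    x * g k = 0 := by
  have h3 : -(((-k).toNat : ℕ) : ℤ) = k := by omega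
  have := h.hx (-k).toNat (by omega) (by omega)
  rwa [h3] at this

theorem gy (h : Core X x y g p q c cxy cyy α β) {k : ℤ} (h1 : -(q : ℤ) ≤ k) (h2 : k < 0) :
    y * g k = 0 := by
  have h3 : -(((-k).toNat : ℕ) : ℤ) = k := by omega
  have := h.hy (-k).toNat (by omega) (by omega)
  rwa [h3] at this

theorem canc (h : Core X x y g p q c cxy cyy α β) (n : ℕ) {A : Matrix (Fin D) (Fin D) ℂ}
    (hA : X ^ n * A = 0) : A = 0 := by
  have hu : IsUnit (X ^ n) := h.hX.pow n
  exact (hu.mul_right_eq_zero).mp hA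

theorem sumA {S : ℤ} {s : ℕ} (h1 : 1 ≤ s) (h2 : s ≤ p)
    (H : ∀ j, 1 ≤ j → j ≤ p → j ≠ s → α j = 0 ∨ x * g (S - j) = 0) :
    ∑ j ∈ Finset.Icc 1 p, α j • (X ^ j * x * g (S - j)) = α s • (X ^ s * (x * g (S - s))) := by
  rw [Finset.sum_eq_single_of_mem s (Finset.mem_Icc.mpr ⟨h1, h2⟩), Matrix.mul_assoc]
  intro j hj hne
  rw [Finset.mem_Icc] at hj
  rcases H j hj.1 hj.2 hne with h | h
  · rw [h, zero_smul]
  · rw [Matrix.mul_assoc, h, Matrix.mul_zero, smul_zero]

theorem sumA0 {S : ℤ} (H : ∀ j, 1 ≤ j → j ≤ p → α j = 0 ∨ x * g (S - j) = 0) :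
    ∑ j ∈ Finset.Icc 1 p, α j • (X ^ j * x * g (S - j)) = 0 := by
  refine Finset.sum_eq_zero fun j hj => ?_
  rw [Finset.mem_Icc] at hj
  rcases H j hj.1 hj.2 with h | h
  · rw [h, zero_smul]
  · rw [Matrix.mul_assoc, h, Matrix.mul_zero, smul_zero]

end

theorem Core1 : St_Core1 := by
  intro D X x y g p q c cxy cyy α β h hx0 hy0 hex
  classical
  have hp := h.hp
  have hq := h.hq
  obtain ⟨i0, hi0, hmin⟩ : ∃ i : ℕ, y * g ((i : ℤ) * (p + 1)) ≠ 0 ∧
      ∀ j < i, y * g ((j : ℤ) * (p + 1)) = 0 :=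
    ⟨Nat.find hex, Nat.find_spec hex, fun j hj => not_not.mp (Nat.find_min hex hj)⟩
  have hi1 : 1 ≤ i0 := by
    rcases Nat.eq_zero_or_pos i0 with h0 | h0
    · subst h0; simp [hy0] at hi0
    · exact h0
  have hia : (p : ℤ) + 1 ≤ (i0 : ℤ) * (p + 1) := by
    have : (1 : ℤ) * (p + 1) ≤ (i0 : ℤ) * (p + 1) :=
      mul_le_mul_of_nonneg_right (by exact_mod_cast hi1) (by positivity)
    linarith
  -- multiples
  have hmul : ∀ k : ℕ, (p + 1) ∣ k → (k : ℤ) < (i0 : ℤ) * (p + 1) → y * g k = 0 := by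
    rintro k ⟨j, rfl⟩ hk
    have hj : j < i0 := by
      by_contra hcon
      push Not at hcon
      have : (i0 : ℤ) * (p + 1) ≤ (j : ℤ) * (p + 1) :=
        mul_le_mul_of_nonneg_right (by exact_mod_cast hcon) (by positivity)
      push_cast at hk
      linarith
    have := hmin j hj
    have e : (((p + 1) * j : ℕ) : ℤ) = (j : ℤ) * (p + 1) := by push_cast; ring
    rw [e]; exact this
  -- Claim A
  have hA : ∀ k : ℕ, (k : ℤ) < (i0 : ℤ) * (p + 1) → ¬ (p + 1) ∣ k → g k = 0 := by
    intro k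
    induction k using Nat.strong_induction_on with
    | _ k ih =>
      intro hk hnd
      have hk1 : 1 ≤ k := by
        rcases Nat.eq_zero_or_pos k with h0 | h0
        · subst h0; exact absurd (dvd_zero _) hnd
        · exact h0
      rw [h.hg k]
      have e1 : x * g ((k : ℤ) - (p + 1)) = 0 := by
        by_cases hlt : k < p + 1
        · exact gx h (by omega) (by omega)
        · have hnd' : ¬ (p + 1) ∣ k - (p + 1) := by
            intro hd
            exact hnd ((Nat.dvd_sub_iff_left (by omega) (dvd_refl _)).mp hd)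
          have h3 := ih (k - (p + 1)) (by omega) (by omega) hnd'
          have e : ((k - (p + 1) : ℕ) : ℤ) = (k : ℤ) - (p + 1) := by omega
          rw [e] at h3
          rw [h3, Matrix.mul_zero]
      have e2 : y * g ((k : ℤ) - (q + 1)) = 0 := by
        by_cases hlt : k < q + 1
        · exact gy h (by omega) (by omega)
        · have e : ((k - (q + 1) : ℕ) : ℤ) = (k : ℤ) - (q + 1) := by omega
          by_cases hd : (p + 1) ∣ k - (q + 1)
          · have h3 := hmul _ hd (by omega)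
            rwa [e] at h3
          · have h3 := ih (k - (q + 1)) (by omega) (by omega) hd
            rw [e] at h3
            rw [h3, Matrix.mul_zero]
      rw [Matrix.mul_assoc, e1, Matrix.mul_assoc, e2]
      simp
  have hB : ∀ k : ℤ, -(q : ℤ) ≤ k → k < (i0 : ℤ) * (p + 1) → y * g k = 0 := by
    intro k h1 h2
    by_cases hk : k < 0
    · exact gy h h1 hk
    · obtain ⟨n, rfl⟩ : ∃ n : ℕ, k = n := ⟨k.toNat, by omega⟩
      by_cases hd : (p + 1) ∣ n
      · exact hmul n hd h2
      · rw [hA n h2 hd, Matrix.mul_zero]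
  -- the `α`
  have hal : ∀ s, 1 ≤ s → s ≤ p → α s = 0 := by
    intro s h1 h2
    have he := h.heq s
    rw [show ∑ j ∈ Finset.Icc 1 q, β j • (X ^ j * y * g ((s : ℤ) - j)) = 0 from
      sumA0 fun j hj1 hj2 => Or.inr (hB _ (by omega) (by omega))] at he
    rw [sumA h1 h2 (fun j hj1 hj2 hne => Or.inr (by
      rcases lt_or_gt_of_ne hne with hlt | hgt
      · have e : ((s - j : ℕ) : ℤ) = (s : ℤ) - j := by omega
        have h3 := hA (s - j) (by omega) (fun hd => by
          have := Nat.le_of_dvd (by omega) hd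
          omega)
        rw [e] at h3
        rw [h3, Matrix.mul_zero]
      · exact gx h (by omega) (by omega)))] at he
    rw [Matrix.mul_assoc _ x, gx h (k := (s : ℤ) - (p + 1)) (by omega) (by omega),
      Matrix.mul_assoc _ y, hB ((s : ℤ) - (q + 1)) (by omega) (by omega)] at he
    simp only [Matrix.mul_zero, smul_zero, zero_add, add_zero, sub_self] at he
    rw [← Matrix.mul_smul] at he
    have h4 := canc h s he
    rcases smul_eq_zero.mp h4 with h5 | h5
    · exact h5
    · exact absurd h5 hx0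
  -- `c`
  have hc : c = 0 := by
    have he := h.heq ((p : ℤ) + 1)
    rw [show ∑ j ∈ Finset.Icc 1 q, β j • (X ^ j * y * g ((p : ℤ) + 1 - j)) = 0 from
      sumA0 fun j hj1 hj2 => Or.inr (hB _ (by omega) (by omega))] at he
    rw [sumA0 (fun j hj1 hj2 => Or.inl (hal j hj1 hj2))] at he
    rw [Matrix.mul_assoc _ y, hB ((p : ℤ) + 1 - (q + 1)) (by omega) (by omega)] at he
    simp only [Matrix.mul_zero, add_zero, sub_self] at he
    rw [Matrix.mul_assoc, ← Matrix.mul_smul] at he
    have h4 := canc h (p + 1) he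
    rcases smul_eq_zero.mp h4 with h5 | h5
    · exact h5
    · exact absurd h5 hx0
  refine ⟨hc, hal, ?_⟩
  intro s
  induction s using Nat.strong_induction_on with
  | _ s ih =>
    intro h1 h2
    have he := h.heq ((i0 : ℤ) * (p + 1) + s)
    rw [sumA0 (fun j hj1 hj2 => Or.inl (hal j hj1 hj2))] at he
    rw [show ∑ j ∈ Finset.Icc 1 q, β j • (X ^ j * y * g ((i0 : ℤ) * (p + 1) + s - j)) =
      β s • (X ^ s * (y * g ((i0 : ℤ) * (p + 1) + s - s))) from
      sumA h1 h2 fun j hj1 hj2 hne => by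
        rcases lt_or_gt_of_ne hne with hlt | hgt
        · exact Or.inl (ih j hlt hj1 hj2)
        · exact Or.inr (hB _ (by omega) (by omega))] at he
    rw [Matrix.mul_assoc _ y, hB ((i0 : ℤ) * (p + 1) + s - (q + 1)) (by omega) (by omega), hc] at he
    simp only [Matrix.mul_zero, add_zero, zero_add, zero_smul, add_sub_cancel_right] at he
    rw [← Matrix.mul_smul] at he
    have h4 := canc h s he
    rcases smul_eq_zero.mp h4 with h5 | h5
    · exact h5
    · exact absurd h5 hi0

end Pool.Agent.Y388.MPS
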