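import Pool.Agent.Y388.MPS.Core1

/-!
# MPS: vanishing of the coefficients, case `y g(0) ≠ 0`
-/

set_option autoImplicit false

namespace Pool.Agent.Y388.MPS

open Matrix Pool.Agent.Y659.MPS

section

variable {D : ℕ} {X x y : Matrix (Fin D) (Fin D) ℂ} {g : ℤ → Matrix (Fin D) (Fin D) ℂ}
  {p q : ℕ} {c cxy cyy : ℂ} {α β : ℕ → ℂ}

/-- F1, for natural numbers. -/
theorem f1n (h : Core X x y g p q c cxy cyy α β) {i : ℕ}
    (hmin : ∀ j < i, x * g ((j : ℤ) * (q + 1)) = 0) :
    ∀ k : ℕ, k < i * (q + 1) → ¬ (q + 1) ∣ k → g k = 0 := by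
  have hmul : ∀ k : ℕ, (q + 1) ∣ k → k < i * (q + 1) → x * g k = 0 := by
    rintro k ⟨j, rfl⟩ hk
    have hj : j < i := by
      by_contra hcon
      push Not at hcon
      have : i * (q + 1) ≤ j * (q + 1) := Nat.mul_le_mul_right _ hcon
      rw [Nat.mul_comm] at hk
      omega
    have := hmin j hj
    have e : (((q + 1) * j : ℕ) : ℤ) = (j : ℤ) * (q + 1) := by push_cast; ring
    rw [e]; exact this
  intro k
  induction k using Nat.strong_induction_on with
  | _ k ih =>
    intro hk hnd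
    have hk1 : 1 ≤ k := by
      rcases Nat.eq_zero_or_pos k with h0 | h0
      · subst h0; exact absurd (dvd_zero _) hnd
      · exact h0
    rw [h.hg k]
    have e1 : x * g ((k : ℤ) - (p + 1)) = 0 := by
      by_cases hlt : k < p + 1
      · exact gx h (by omega) (by omega)
      · have e : ((k - (p + 1) : ℕ) : ℤ) = (k : ℤ) - (p + 1) := by omega
        by_cases hd : (q + 1) ∣ k - (p + 1)
        · have h3 := hmul _ hd (by omega)
          rwa [e] at h3
        · have h3 := ih (k - (p + 1)) (by omega) (by omega) hd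
          rw [e] at h3
          rw [h3, Matrix.mul_zero]
    have e2 : y * g ((k : ℤ) - (q + 1)) = 0 := by
      by_cases hlt : k < q + 1
      · exact gy h (by omega) (by omega)
      · have e : ((k - (q + 1) : ℕ) : ℤ) = (k : ℤ) - (q + 1) := by omega
        have hnd' : ¬ (q + 1) ∣ k - (q + 1) := by
          intro hd
          exact hnd ((Nat.dvd_sub_iff_left (by omega) (dvd_refl _)).mp hd)
        have h3 := ih (k - (q + 1)) (by omega) (by omega) hnd'
        rw [e] at h3
        rw [h3, Matrix.mul_zero]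
    rw [Matrix.mul_assoc, e1, Matrix.mul_assoc, e2]
    simp

/-- F1', for integers. -/
theorem f1x (h : Core X x y g p q c cxy cyy α β) {i : ℕ}
    (hmin : ∀ j < i, x * g ((j : ℤ) * (q + 1)) = 0) {k : ℤ} (h1 : -(p : ℤ) ≤ k)
    (h2 : k < (i : ℤ) * (q + 1)) : x * g k = 0 := by
  by_cases hk : k < 0
  · exact gx h h1 hk
  · obtain ⟨n, rfl⟩ : ∃ n : ℕ, k = n := ⟨k.toNat, by omega⟩
    have hn : n < i * (q + 1) := by exact_mod_cast h2
    by_cases hd : (q + 1) ∣ n
    · obtain ⟨j, rfl⟩ := hd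
      have hj : j < i := by
        by_contra hcon
        push Not at hcon
        have : i * (q + 1) ≤ j * (q + 1) := Nat.mul_le_mul_right _ hcon
        rw [Nat.mul_comm] at hn
        omega
      have := hmin j hj
      have e : (((q + 1) * j : ℕ) : ℤ) = (j : ℤ) * (q + 1) := by push_cast; ring
      rw [e]; exact this
    · rw [f1n h hmin n hn hd, Matrix.mul_zero]

/-- F2 and F3. -/
theorem f2 (h : Core X x y g p q c cxy cyy α β) {i : ℕ}
    (hmin : ∀ j < i, x * g ((j : ℤ) * (q + 1)) = 0) :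
    ∀ r : ℕ, 1 ≤ r → r ≤ p → ¬ (q + 1) ∣ r →
      g ((i : ℤ) * (q + 1) + r) = 0 ∧ y * g ((i : ℤ) * (q + 1) + r - (q + 1)) = 0 := by
  intro r
  induction r using Nat.strong_induction_on with
  | _ r ih =>
    intro h1 h2 hnd
    have hi0 : (0 : ℤ) ≤ (i : ℤ) * (q + 1) := by positivity
    have e1 : x * g ((i : ℤ) * (q + 1) + r - (p + 1)) = 0 := f1x h hmin (by omega) (by omega)
    have e2 : y * g ((i : ℤ) * (q + 1) + r - (q + 1)) = 0 := by
      rcases lt_trichotomy r (q + 1) with hlt | heq | hgt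
      · rcases Nat.eq_zero_or_pos i with hi | hi
        · subst hi
          exact gy h (by push_cast; omega) (by push_cast; omega)
        · obtain ⟨i', rfl⟩ : ∃ i', i = i' + 1 := ⟨i - 1, by omega⟩
          have e : ((i' + 1 : ℕ) : ℤ) * (q + 1) + r - (q + 1) =
              ((i' * (q + 1) + r : ℕ) : ℤ) := by push_cast; ring
          rw [e, f1n h hmin (i' * (q + 1) + r) (by rw [Nat.add_mul, Nat.one_mul]; omega) (by
            intro hd
            exact hnd ((Nat.dvd_add_right (Dvd.intro_left i' rfl)).mp hd)), Matrix.mul_zero]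
      · exact absurd (heq ▸ dvd_refl _) hnd
      · have h3 := (ih (r - (q + 1)) (by omega) (by omega) (by omega) (by
          intro hd
          exact hnd ((Nat.dvd_sub_iff_left (by omega) (dvd_refl _)).mp hd))).1
        have e : (i : ℤ) * (q + 1) + ((r - (q + 1) : ℕ) : ℤ) =
            (i : ℤ) * (q + 1) + r - (q + 1) := by omega
        rw [e] at h3
        rw [h3, Matrix.mul_zero]
    refine ⟨?_, e2⟩
    rw [h.hg, Matrix.mul_assoc, e1, Matrix.mul_assoc, e2]
    simp

/-- The `α`, when the `β` vanish. -/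
theorem alph (h : Core X x y g p q c cxy cyy α β) {i : ℕ}
    (hi : x * g ((i : ℤ) * (q + 1)) ≠ 0)
    (hmin : ∀ j < i, x * g ((j : ℤ) * (q + 1)) = 0)
    (hβ : ∀ j, 1 ≤ j → j ≤ q → β j = 0) :
    ∀ s, 1 ≤ s → s ≤ p → ¬ (q + 1) ∣ s → α s = 0 := by
  intro s
  induction s using Nat.strong_induction_on with
  | _ s ih =>
    intro h1 h2 hnd
    have hi0 : (0 : ℤ) ≤ (i : ℤ) * (q + 1) := by positivity
    have he := h.heq ((i : ℤ) * (q + 1) + s)
    rw [show ∑ j ∈ Finset.Icc 1 q, β j • (X ^ j * y * g ((i : ℤ) * (q + 1) + s - j)) = 0 from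
      sumA0 fun j hj1 hj2 => Or.inl (hβ j hj1 hj2)] at he
    rw [sumA h1 h2 (fun j hj1 hj2 hne => by
      rcases lt_or_gt_of_ne hne with hlt | hgt
      · by_cases hd : (q + 1) ∣ s - j
        · refine Or.inl (ih j hlt hj1 hj2 fun hd' => hnd ?_)
          have : s = (s - j) + j := by omega
          rw [this]
          exact Dvd.dvd.add hd hd'
        · right
          have h3 := (f2 h hmin (s - j) (by omega) (by omega) hd).1
          have e : (i : ℤ) * (q + 1) + ((s - j : ℕ) : ℤ) = (i : ℤ) * (q + 1) + s - j := by omega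
          rw [e] at h3
          rw [h3, Matrix.mul_zero]
      · exact Or.inr (f1x h hmin (by omega) (by omega)))] at he
    rw [Matrix.mul_assoc _ x, f1x h hmin (k := (i : ℤ) * (q + 1) + s - (p + 1)) (by omega)
      (by omega), Matrix.mul_assoc _ y, (f2 h hmin s h1 h2 hnd).2] at he
    simp only [Matrix.mul_zero, smul_zero, zero_add, add_zero, add_sub_cancel_right] at he
    rw [← Matrix.mul_smul] at he
    have h4 := canc h s he
    rcases smul_eq_zero.mp h4 with h5 | h5
    · exact h5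
    · exact absurd h5 hi

/-- The `β`, case `1 ≤ i`. -/
theorem bet1 (h : Core X x y g p q c cxy cyy α β) {i : ℕ} (hi1 : 1 ≤ i) (hy0 : y * g 0 ≠ 0)
    (hmin : ∀ j < i, x * g ((j : ℤ) * (q + 1)) = 0) :
    ∀ s, 1 ≤ s → s ≤ q → β s = 0 := by
  intro s h1 h2
  have hib : (q : ℤ) + 1 ≤ (i : ℤ) * (q + 1) := by
    have : (1 : ℤ) * (q + 1) ≤ (i : ℤ) * (q + 1) :=
      mul_le_mul_of_nonneg_right (by exact_mod_cast hi1) (by positivity)
    linarith
  have hibn : q + 1 ≤ i * (q + 1) := Nat.le_mul_of_pos_left _ hi1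
  have hp := h.hp
  have he := h.heq s
  rw [sumA0 (fun j hj1 hj2 => Or.inr (f1x h hmin (by omega) (by omega)))] at he
  rw [show ∑ j ∈ Finset.Icc 1 q, β j • (X ^ j * y * g ((s : ℤ) - j)) =
    β s • (X ^ s * (y * g ((s : ℤ) - s))) from
    sumA h1 h2 fun j hj1 hj2 hne => by
      rcases lt_or_gt_of_ne hne with hlt | hgt
      · right
        have e : ((s - j : ℕ) : ℤ) = (s : ℤ) - j := by omega
        have h3 := f1n h hmin (s - j) (by omega) (fun hd => by
          have := Nat.le_of_dvd (by omega) hd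
          omega)
        rw [e] at h3
        rw [h3, Matrix.mul_zero]
      · exact Or.inr (gy h (by omega) (by omega))] at he
  rw [Matrix.mul_assoc _ x, f1x h hmin (k := (s : ℤ) - (p + 1)) (by omega)
    (by omega), Matrix.mul_assoc _ y, gy h (k := (s : ℤ) - (q + 1)) (by omega) (by omega)] at he
  simp only [Matrix.mul_zero, smul_zero, zero_add, add_zero, sub_self] at he
  rw [← Matrix.mul_smul] at he
  have h4 := canc h s he
  rcases smul_eq_zero.mp h4 with h5 | h5
  · exact h5
  · exact absurd h5 hy0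

/-- Case `i = 0`: both coefficients vanish, as long as `s ≤ p` and `s ≤ q`. -/
theorem both (h : Core X x y g p q c cxy cyy α β)
    (hind : ∀ r s : ℂ, r • (x * g 0) + s • (y * g 0) = 0 → r = 0 ∧ s = 0) :
    ∀ s, 1 ≤ s → s ≤ p → s ≤ q → α s = 0 ∧ β s = 0 := by
  intro s h1 h2 h2'
  have hg0 : ∀ r : ℕ, 1 ≤ r → r < s → g r = 0 := by
    intro r hr1 hr2
    have := (f2 h (i := 0) (by intro j hj; exact absurd hj (Nat.not_lt_zero _)) r hr1 (by omega)
      (fun hd => by
        have := Nat.le_of_dvd (by omega) hd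
        omega)).1
    simpa using this
  have hg1 : ∀ j : ℕ, 1 ≤ j → j < s → g ((s : ℤ) - j) = 0 := by
    intro j hj1 hj2
    have e : ((s - j : ℕ) : ℤ) = (s : ℤ) - j := by omega
    rw [← e]
    exact hg0 _ (by omega) (by omega)
  have he := h.heq s
  rw [sumA h1 h2 (fun j hj1 hj2 hne => by
    rcases lt_or_gt_of_ne hne with hlt | hgt
    · right; rw [hg1 j hj1 hlt, Matrix.mul_zero]
    · exact Or.inr (gx h (by omega) (by omega)))] at he
  rw [show ∑ j ∈ Finset.Icc 1 q, β j • (X ^ j * y * g ((s : ℤ) - j)) =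
    β s • (X ^ s * (y * g ((s : ℤ) - s))) from
    sumA h1 h2' fun j hj1 hj2 hne => by
      rcases lt_or_gt_of_ne hne with hlt | hgt
      · right; rw [hg1 j hj1 hlt, Matrix.mul_zero]
      · exact Or.inr (gy h (by omega) (by omega))] at he
  rw [Matrix.mul_assoc _ x, gx h (k := (s : ℤ) - (p + 1)) (by omega)
    (by omega), Matrix.mul_assoc _ y, gy h (k := (s : ℤ) - (q + 1)) (by omega) (by omega)] at he
  simp only [Matrix.mul_zero, smul_zero, zero_add, add_zero, sub_self] at he
  rw [← Matrix.mul_smul (X ^ s) (α s), ← Matrix.mul_smul (X ^ s) (β s), ← Matrix.mul_add] at he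
  exact hind _ _ (canc h s he)

/-- The `β`, case `i = 0`. -/
theorem bet0 (h : Core X x y g p q c cxy cyy α β)
    (hind : ∀ r s : ℂ, r • (x * g 0) + s • (y * g 0) = 0 → r = 0 ∧ s = 0) (hy0 : y * g 0 ≠ 0) :
    ∀ s, 1 ≤ s → s ≤ q → β s = 0 := by
  intro s h1 h2
  by_cases hqp : q ≤ p
  · exact (both h hind s h1 (by omega) h2).2
  push Not at hqp
  have hb := both h hind
  have hα : ∀ j, 1 ≤ j → j ≤ p → α j = 0 := fun j h1 h2 => (hb j h1 h2 (by omega)).1
  have hβ : ∀ j, 1 ≤ j → j ≤ p → β j = 0 := fun j h1 h2 => (hb j h1 h2 (by omega)).2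
  have hcb : c = 0 ∧ β (p + 1) = 0 := by
    have he := h.heq ((p + 1 : ℕ) : ℤ)
    rw [sumA0 (fun j hj1 hj2 => Or.inl (hα j hj1 hj2))] at he
    rw [show ∑ j ∈ Finset.Icc 1 q, β j • (X ^ j * y * g (((p + 1 : ℕ) : ℤ) - j)) =
      β (p + 1) • (X ^ (p + 1) * (y * g (((p + 1 : ℕ) : ℤ) - ((p + 1 : ℕ) : ℤ)))) from
      sumA (by omega) (by omega) fun j hj1 hj2 hne => by
        rcases lt_or_gt_of_ne hne with hlt | hgt
        · exact Or.inl (hβ j hj1 (by omega))
        · exact Or.inr (gy h (by omega) (by omega))] at he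
    have e : ((p + 1 : ℕ) : ℤ) - ((p : ℤ) + 1) = 0 := by push_cast; ring
    rw [Matrix.mul_assoc _ y,
      gy h (k := ((p + 1 : ℕ) : ℤ) - (q + 1)) (by omega) (by omega), e] at he
    simp only [Matrix.mul_zero, add_zero, sub_self] at he
    rw [Matrix.mul_assoc, ← Matrix.mul_smul (X ^ (p + 1)) c (x * g 0),
      ← Matrix.mul_smul (X ^ (p + 1)) (β (p + 1)), ← Matrix.mul_add] at he
    exact hind _ _ (canc h (p + 1) he)
  obtain ⟨hc, hβa⟩ := hcb
  have key : ∀ s, 1 ≤ s → s ≤ q → β s = 0 := by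
    intro s
    induction s using Nat.strong_induction_on with
    | _ s ih =>
      intro h1 h2
      by_cases hs : s ≤ p
      · exact hβ s h1 hs
      push Not at hs
      have he := h.heq s
      rw [sumA0 (fun j hj1 hj2 => Or.inl (hα j hj1 hj2))] at he
      rw [show ∑ j ∈ Finset.Icc 1 q, β j • (X ^ j * y * g ((s : ℤ) - j)) =
        β s • (X ^ s * (y * g ((s : ℤ) - s))) from
        sumA h1 h2 fun j hj1 hj2 hne => by
          rcases lt_or_gt_of_ne hne with hlt | hgt
          · exact Or.inl (ih j hlt hj1 hj2)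
          · exact Or.inr (gy h (by omega) (by omega))] at he
      rw [hc, Matrix.mul_assoc _ y,
        gy h (k := (s : ℤ) - (q + 1)) (by omega) (by omega)] at he
      simp only [Matrix.mul_zero, zero_smul, zero_add, add_zero, sub_self] at he
      rw [← Matrix.mul_smul] at he
      have h4 := canc h s he
      rcases smul_eq_zero.mp h4 with h5 | h5
      · exact h5
      · exact absurd h5 hy0
  exact key s h1 h2

end

theorem Core2 : St_Core2 := by
  intro D X x y g p q c cxy cyy α β h hy0 hind hex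
  classical
  have hp := h.hp
  have hq := h.hq
  obtain ⟨i, hi, hmin⟩ : ∃ i : ℕ, x * g ((i : ℤ) * (q + 1)) ≠ 0 ∧
      ∀ j < i, x * g ((j : ℤ) * (q + 1)) = 0 :=
    ⟨Nat.find hex, Nat.find_spec hex, fun j hj => not_not.mp (Nat.find_min hex hj)⟩
  have hβ : ∀ j, 1 ≤ j → j ≤ q → β j = 0 := by
    rcases Nat.eq_zero_or_pos i with h0 | h0
    · subst h0
      have hx0 : x * g 0 ≠ 0 := by simpa using hi
      exact bet0 h (hind hx0) hy0
    · exact bet1 h h0 hy0 hmin
  refine ⟨hβ, alph h hi hmin hβ, i, hi, ?_⟩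
  intro hi1
  have hib : (q : ℤ) + 1 ≤ (i : ℤ) * (q + 1) := by
    have : (1 : ℤ) * (q + 1) ≤ (i : ℤ) * (q + 1) :=
      mul_le_mul_of_nonneg_right (by exact_mod_cast hi1) (by positivity)
    linarith
  have e : ((i : ℤ) - 1) * (q + 1) = (i : ℤ) * (q + 1) - (q + 1) := by ring
  rw [e]
  conv_lhs => rw [h.hg]
  rw [Matrix.mul_add, Matrix.mul_assoc (X ^ p),
    f1x h hmin (k := (i : ℤ) * (q + 1) - (p + 1)) (by omega) (by omega)]
  simp only [Matrix.mul_zero, zero_add, Matrix.mul_assoc]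

end Pool.Agent.Y388.MPS
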